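import Pool.Agent.Lib.MP_bd7745_co.Count
import Pool.Agent.Lib.MP_bd7745_co.Four

open Pool.Agent.Lib.MP_bd7745_co

/-- The fraction of 4-uniform hypergraphs on `n` labelled vertices whose degrees are pairwise
distinct is `exp (-√(3 n / (2 π)))` up to constant factors. -/
theorem Pool.Agent.Results.MP_bd7745_co.FourUniform.result :
    ∃ c C : ℝ, 0 < c ∧ ∃ N : ℕ, ∀ n : ℕ, N ≤ n →
      ((((Finset.univ : Finset (Fin n)).powersetCard 4).powerset.filter fun H =>
          ∀ v w : Fin n, v ≠ w →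
            (H.filter fun e => v ∈ e).card ≠ (H.filter fun e => w ∈ e).card).card : ℝ) /
        (((Finset.univ : Finset (Fin n)).powersetCard 4).powerset.card : ℝ) ∈
      Set.Icc (c * Real.exp (-Real.sqrt (3 * n / (2 * Real.pi))))
        (C * Real.exp (-Real.sqrt (3 * n / (2 * Real.pi)))) := by
  obtain ⟨c, hc, N1, h1⟩ := four_low
  obtain ⟨C, N2, h2⟩ := four_up
  refine ⟨c, C, hc, max N1 N2, fun n hn => ?_⟩
  rw [PP_eq 3 n]
  exact ⟨h1 n (le_of_max_le_left hn), h2 n (le_of_max_le_right hn)⟩
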