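import Pool.Agent.Lib.MP_bd7745_co.Count
import Pool.Agent.Lib.MP_bd7745_co.Fm.Limit

open Pool.Agent.Lib.MP_bd7745_co

/-- The fraction of 3-uniform hypergraphs on `n` labelled vertices whose degrees are pairwise
distinct decays exponentially, and the exact rate is the minimum of an explicit function. -/
theorem Pool.Agent.Results.MP_bd7745_co.ThreeRate.result (F : ℝ → ℝ)
    (hF : ∀ z : ℝ, F z = (∫ u : ℝ, Real.log (1 + z * Real.exp (-4 * u ^ 2))) - Real.log z - 1 -
      Real.log (Real.sqrt Real.pi / 2)) :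
    ∃ z₀ : ℝ, 0 < z₀ ∧ (∀ z : ℝ, 0 < z → F z₀ ≤ F z) ∧ F z₀ < 0 ∧
      Filter.Tendsto (fun n : ℕ => Real.log
        (((((Finset.univ : Finset (Fin n)).powersetCard 3).powerset.filter fun H =>
            ∀ v w : Fin n, v ≠ w →
              (H.filter fun e => v ∈ e).card ≠ (H.filter fun e => w ∈ e).card).card : ℝ) /
          (((Finset.univ : Finset (Fin n)).powersetCard 3).powerset.card : ℝ)) / (n : ℝ))
        Filter.atTop (nhds (F z₀)) := by
  have hE : F = Fm.Phi := funext hF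
  obtain ⟨z0, hz, hm⟩ := Fm.exists_min
  refine ⟨z0, hz, hE ▸ hm, hE ▸ Fm.rate_neg hm, ?_⟩
  rw [hE]
  exact (Fm.lim_rate hz hm).congr fun n => by rw [PP_eq 2 n]
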